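import Mathlib
import Pool.Agent.GW6.Main

namespace Pool.Agent.Results.MP_33f996_nt.ShortWindows

open Finset Pool.Agent.GW6

theorem result : ∃ c : ℝ, 0 < c ∧ ∀ X Y H : ℕ,
    10 ^ 6 * X ≤ Y ^ 2 → 10 ^ 6 * Y ≤ X → 1 ≤ H → 10 ^ 6 * H ≤ Y →
    c * min 1 (H / (Real.log X) ^ 2) * (X * Y) ≤
      ({t : ℕ × ℕ | 1 ≤ t.1 ∧ t.1 ≤ Y ∧ 1 ≤ t.2 ∧ t.2 ≤ X ∧
        max 1 (c * (H / (Real.log X) ^ 2)) ≤
          ({p : ℕ | p.Prime ∧ t.1 < p ∧ p ≤ t.1 + H ∧ Real.sqrt (2 * t.2) < p ∧ p < t.2 ∧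
            (2 * t.2 - p).Prime}.ncard : ℝ)}.ncard : ℝ) := by
  classical
  obtain ⟨c, hc, h⟩ := many_pairs
  refine ⟨c, hc, ?_⟩
  intro X Y H hXY hYX hH1 hH
  refine (h X Y H hXY hYX hH1 hH).trans ?_
  rw [← Set.ncard_coe_finset]
  have hfin : {t : ℕ × ℕ | 1 ≤ t.1 ∧ t.1 ≤ Y ∧ 1 ≤ t.2 ∧ t.2 ≤ X ∧
        max 1 (c * (H / (Real.log X) ^ 2)) ≤
          ({p : ℕ | p.Prime ∧ t.1 < p ∧ p ≤ t.1 + H ∧ Real.sqrt (2 * t.2) < p ∧ p < t.2 ∧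
            (2 * t.2 - p).Prime}.ncard : ℝ)}.Finite := by
    refine (finite_toSet (BB X Y)).subset ?_
    rintro ⟨y, n⟩ ⟨h1, h2, h3, h4, -⟩
    simp only [BB, coe_product, Set.mem_prod, mem_coe, mem_Icc]
    exact ⟨⟨h1, h2⟩, h3, h4⟩
  have hsub : (((BB X Y).filter (fun b => max 1 (c * (H / (Real.log X) ^ 2)) ≤
        ((rp Y H b).card : ℝ)) : Finset (ℕ × ℕ)) : Set (ℕ × ℕ)) ⊆
      {t : ℕ × ℕ | 1 ≤ t.1 ∧ t.1 ≤ Y ∧ 1 ≤ t.2 ∧ t.2 ≤ X ∧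
        max 1 (c * (H / (Real.log X) ^ 2)) ≤
          ({p : ℕ | p.Prime ∧ t.1 < p ∧ p ≤ t.1 + H ∧ Real.sqrt (2 * t.2) < p ∧ p < t.2 ∧
            (2 * t.2 - p).Prime}.ncard : ℝ)} := by
    rintro ⟨y, n⟩ hb
    rw [mem_coe, mem_filter] at hb
    obtain ⟨hb1, hb2⟩ := hb
    simp only [BB, mem_product, mem_Icc] at hb1
    refine ⟨hb1.1.1, hb1.1.2, hb1.2.1, hb1.2.2, hb2.trans ?_⟩
    have hf2 : {p : ℕ | p.Prime ∧ y < p ∧ p ≤ y + H ∧ Real.sqrt (2 * n) < p ∧ p < n ∧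
            (2 * n - p).Prime}.Finite := by
      refine (finite_toSet (Ioc y (y + H))).subset ?_
      rintro p ⟨-, h1, h2, -⟩
      simp only [mem_coe, mem_Ioc]
      exact ⟨h1, h2⟩
    have hs2 : ((rp Y H (y, n) : Finset ℕ) : Set ℕ) ⊆ {p : ℕ | p.Prime ∧ y < p ∧ p ≤ y + H ∧
        Real.sqrt (2 * n) < p ∧ p < n ∧ (2 * n - p).Prime} := by
      intro p hp
      simp only [rp, mem_coe, mem_filter, mem_Ioc] at hp
      obtain ⟨⟨hp1, hp2⟩, hpp, hp3, hp4, hq1, hqp⟩ := hp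
      refine ⟨hpp, hp1, hp2, ?_, by omega, hqp⟩
      rw [Real.sqrt_lt' (by exact_mod_cast hpp.pos)]
      have e1 : Y < 160 * p := by omega
      have e2 : Y ^ 2 < (160 * p) ^ 2 := by gcongr
      have e3 : 2 * n < p ^ 2 := by
        have e4 : n ≤ X := hb1.2.2
        nlinarith
      exact_mod_cast e3
    have := Set.ncard_le_ncard hs2 hf2
    rw [Set.ncard_coe_finset] at this
    exact_mod_cast this
  exact_mod_cast Set.ncard_le_ncard hsub hfin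

end Pool.Agent.Results.MP_33f996_nt.ShortWindows
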