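import Mathlib
import Pool.Agent.Gold42.FirstLower

/-! # MP_33f996_nt: Goldbach partitions of `2 n` with a prime in `[n - H, n)`

Let `R H n` be the number of primes `p` in the open interval `(√(2n), n)` with `n - p ≤ H` and
`2 n - p` prime.  For `H ≥ 1` the mean of `R H n` over `n ≤ N` is at most `C H / log² N`, and for
`10 log N ≤ H ≤ N` there are at least `c N min(1, H / log² N)` integers `n ≤ N` with
`R H n ≥ max(1, c H / log² N)`.

Proof: the first moment counts pairs of primes at distance at most `2 H` (lower bound by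
Cauchy-Schwarz, upper bound by a sieve of dimension two); the second moment is bounded by a sieve
of dimension four and averages of the singular series.
-/

namespace Pool.Agent.Results.MP_33f996_nt.UpperWindow

open Finset Real Filter Pool.Agent.Gold42

/-- the number of primes `p` in `(√(2n), n)` with `n - p ≤ H` and `2 n - p` prime -/
noncomputable def R (H : ℝ) (n : ℕ) : ℕ :=
  Nat.card {p : ℕ // p.Prime ∧ √(2 * (n : ℝ)) < p ∧ p < n ∧ (n : ℝ) - p ≤ H ∧ (2 * n - p).Prime}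

/-- the set of these primes -/
noncomputable def RS (H : ℝ) (n : ℕ) : Finset ℕ := by
  classical exact (range n).filter (fun p => p.Prime ∧ √(2 * (n : ℝ)) < p ∧
    (n : ℝ) - p ≤ H ∧ (2 * n - p).Prime)

lemma mem_RS {H : ℝ} {n p : ℕ} : p ∈ RS H n ↔
    p.Prime ∧ √(2 * (n : ℝ)) < p ∧ p < n ∧ (n : ℝ) - p ≤ H ∧ (2 * n - p).Prime := by
  classical
  unfold RS; rw [mem_filter, mem_range]
  tauto

lemma R_eq (H : ℝ) (n : ℕ) : R H n = (RS H n).card := by
  unfold R
  exact Nat.subtype_card (RS H n) fun p => mem_RS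

/-- upper bound by `rH` -/
lemma R_le (H' n : ℕ) (H : ℝ) (hH : H < H' + 1) : (R H n : ℝ) ≤ rH H' n := by
  classical
  rw [R_eq]
  have h1 : rH H' n = (((Ioc 0 H').filter (fun h => (n - h).Prime ∧ (n + h).Prime)).card : ℝ) := by
    unfold rH ind
    rw [card_filter]
    push_cast
    rfl
  rw [h1]
  have h2 : (RS H n).card ≤ ((Ioc 0 H').filter (fun h => (n - h).Prime ∧ (n + h).Prime)).card := by
    apply card_le_card_of_injOn (fun p => n - p)
    · intro p hp
      rw [mem_coe, mem_RS] at hp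
      obtain ⟨hp, -, hpn, hpH, hq⟩ := hp
      have e1 : ((n - p : ℕ) : ℝ) = (n : ℝ) - p := by rw [Nat.cast_sub hpn.le]
      have e2 : ((n - p : ℕ) : ℝ) < H' + 1 := by rw [e1]; linarith
      have e3 : n - p < H' + 1 := by exact_mod_cast e2
      show n - p ∈ (((Ioc 0 H').filter (fun h => (n - h).Prime ∧ (n + h).Prime) : Finset ℕ) : Set ℕ)
      rw [mem_coe, mem_filter, mem_Ioc]
      refine ⟨⟨by omega, by omega⟩, ?_, ?_⟩
      · have e4 : n - (n - p) = p := by omega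
        rw [e4]; exact hp
      · have e4 : n + (n - p) = 2 * n - p := by omega
        rw [e4]; exact hq
    · intro p hp p' hp' heq
      rw [mem_coe, mem_RS] at hp hp'
      have i1 := hp.2.2.1
      have i2 := hp'.2.2.1
      simp only at heq
      omega
  exact_mod_cast h2

/-- the modified indicator -/
noncomputable def ind' (n h : ℕ) : ℝ := by
  classical exact if (n - h).Prime ∧ (n + h).Prime ∧ √(2 * (n : ℝ)) < ((n - h : ℕ) : ℝ) then 1 else 0

noncomputable def r' (H n : ℕ) : ℝ := ∑ h ∈ Ioc 0 H, ind' n h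

lemma ind'_nonneg (n h : ℕ) : 0 ≤ ind' n h := by unfold ind'; split_ifs <;> norm_num

lemma ind'_le (n h : ℕ) : ind' n h ≤ ind n h := by
  unfold ind' ind
  split_ifs with h1 h2 h2
  · exact le_rfl
  · exact absurd ⟨h1.1, h1.2.1⟩ h2
  · norm_num
  · exact le_rfl

lemma r'_nonneg (H n : ℕ) : 0 ≤ r' H n := sum_nonneg fun h _ => ind'_nonneg n h

lemma r'_le (H n : ℕ) : r' H n ≤ rH H n := sum_le_sum fun h _ => ind'_le n h

lemma r'_le_R (H' n : ℕ) (H : ℝ) (hH : (H' : ℝ) ≤ H) : r' H' n ≤ R H n := by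
  classical
  rw [R_eq]
  have h1 : r' H' n = (((Ioc 0 H').filter (fun h => (n - h).Prime ∧ (n + h).Prime ∧
      √(2 * (n : ℝ)) < ((n - h : ℕ) : ℝ))).card : ℝ) := by
    unfold r' ind'
    rw [card_filter]
    push_cast
    rfl
  rw [h1]
  have h2 : ((Ioc 0 H').filter (fun h => (n - h).Prime ∧ (n + h).Prime ∧
      √(2 * (n : ℝ)) < ((n - h : ℕ) : ℝ))).card ≤ (RS H n).card := by
    apply card_le_card_of_injOn (fun h => n - h)
    · intro h hh
      rw [mem_coe, mem_filter, mem_Ioc] at hh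
      obtain ⟨⟨h0, hH'⟩, hp, hq, hs⟩ := hh
      have hpos := hp.pos
      show n - h ∈ (RS H n : Set ℕ)
      rw [mem_coe, mem_RS]
      refine ⟨hp, hs, by omega, ?_, ?_⟩
      · have e1 : ((n - h : ℕ) : ℝ) = (n : ℝ) - h := by rw [Nat.cast_sub (by omega)]
        rw [e1]
        have e2 : (h : ℝ) ≤ H' := by exact_mod_cast hH'
        linarith
      · have e1 : 2 * n - (n - h) = n + h := by omega
        rw [e1]; exact hq
    · intro i hi j hj hij
      rw [mem_coe, mem_filter, mem_Ioc] at hi hj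
      have p1 := hi.2.1.pos
      have p2 := hj.2.1.pos
      simp only at hij
      omega
  exact_mod_cast h2

/-- if `r'` is positive then `R ≥ 1` -/
lemma one_le_R (H' n : ℕ) (H : ℝ) (hH : (H' : ℝ) ≤ H) (h : 0 < r' H' n) : 1 ≤ R H n := by
  have h1 := r'_le_R H' n H hH
  have h2 : (0 : ℝ) < R H n := by linarith
  have h3 : 0 < R H n := by exact_mod_cast h2
  exact h3

/-- the loss of the small primes -/
lemma loss (N H' : ℕ) : ∑ n ∈ Ioc 0 N, rH H' n
    ≤ ∑ n ∈ Ioc 0 N, r' H' n + H' * √(2 * (N : ℝ)) := by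
  classical
  have h1 : ∀ n ∈ Ioc 0 N, ∀ h : ℕ, ind n h ≤ ind' n h +
      (if 0 < n - h ∧ n - h ≤ ⌊√(2 * (N : ℝ))⌋₊ then 1 else 0) := by
    intro n hn h
    rw [mem_Ioc] at hn
    unfold ind ind'
    by_cases h2 : (n - h).Prime ∧ (n + h).Prime
    · rw [if_pos h2]
      by_cases h3 : √(2 * (n : ℝ)) < ((n - h : ℕ) : ℝ)
      · rw [if_pos ⟨h2.1, h2.2, h3⟩]
        split_ifs <;> norm_num
      · rw [if_neg (by tauto), if_pos]
        · norm_num
        · refine ⟨h2.1.pos, ?_⟩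
          push Not at h3
          apply Nat.le_floor
          refine h3.trans ?_
          apply Real.sqrt_le_sqrt
          have : (n : ℝ) ≤ N := by exact_mod_cast hn.2
          linarith
    · rw [if_neg h2]
      split_ifs <;> norm_num
  calc ∑ n ∈ Ioc 0 N, rH H' n
      ≤ ∑ n ∈ Ioc 0 N, (r' H' n + ∑ h ∈ Ioc 0 H',
          (if 0 < n - h ∧ n - h ≤ ⌊√(2 * (N : ℝ))⌋₊ then (1 : ℝ) else 0)) := by
        refine sum_le_sum fun n hn => ?_
        unfold rH r'
        rw [← sum_add_distrib]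
        exact sum_le_sum fun h _ => h1 n hn h
    _ = ∑ n ∈ Ioc 0 N, r' H' n + ∑ h ∈ Ioc 0 H', ∑ n ∈ Ioc 0 N,
          (if 0 < n - h ∧ n - h ≤ ⌊√(2 * (N : ℝ))⌋₊ then (1 : ℝ) else 0) := by
        rw [sum_add_distrib]
        congr 1
        rw [sum_comm]
    _ ≤ ∑ n ∈ Ioc 0 N, r' H' n + ∑ h ∈ Ioc 0 H', √(2 * (N : ℝ)) := by
        gcongr with h _
        rw [← sum_filter, sum_const, nsmul_eq_mul, mul_one]
        have e1 := card_near N h ⌊√(2 * (N : ℝ))⌋₊
        have e2 : (⌊√(2 * (N : ℝ))⌋₊ : ℝ) ≤ √(2 * (N : ℝ)) := Nat.floor_le (Real.sqrt_nonneg _)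
        have e3 : ((((Ioc 0 N).filter (fun n => 0 < n - h ∧ n - h ≤ ⌊√(2 * (N : ℝ))⌋₊)).card : ℕ) : ℝ)
            ≤ (⌊√(2 * (N : ℝ))⌋₊ : ℝ) := by exact_mod_cast e1
        linarith
    _ = _ := by
        rw [sum_const, Nat.card_Ioc, nsmul_eq_mul, Nat.sub_zero]

/-- a Paley-Zygmund inequality -/
lemma paley (s : Finset ℕ) (f : ℕ → ℝ) (μ : ℝ) (hμ : 0 ≤ μ)
    (h1 : s.card * μ ≤ ∑ n ∈ s, f n) :
    (s.card * μ / 2) ^ 2 ≤
      ((s.filter (fun n => 0 < f n ∧ μ / 2 ≤ f n)).card : ℝ) * ∑ n ∈ s, f n ^ 2 := by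
  classical
  have h2 : ∑ n ∈ s, f n ≤ ∑ n ∈ s.filter (fun n => 0 < f n ∧ μ / 2 ≤ f n), f n
      + s.card * (μ / 2) := by
    rw [← sum_filter_add_sum_filter_not s (fun n => 0 < f n ∧ μ / 2 ≤ f n)]
    gcongr
    calc ∑ n ∈ s.filter (fun n => ¬ (0 < f n ∧ μ / 2 ≤ f n)), f n
        ≤ ∑ n ∈ s.filter (fun n => ¬ (0 < f n ∧ μ / 2 ≤ f n)), μ / 2 := by
          refine sum_le_sum fun n hn => ?_
          rw [mem_filter] at hn
          by_contra hcon
          push Not at hcon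
          exact hn.2 ⟨by linarith, hcon.le⟩
      _ ≤ ∑ n ∈ s, μ / 2 :=
          sum_le_sum_of_subset_of_nonneg (filter_subset _ _) fun n _ _ => by linarith
      _ = s.card * (μ / 2) := by rw [sum_const, nsmul_eq_mul]
  have h3 : s.card * μ / 2 ≤ ∑ n ∈ s.filter (fun n => 0 < f n ∧ μ / 2 ≤ f n), f n := by linarith
  calc (s.card * μ / 2) ^ 2
      ≤ (∑ n ∈ s.filter (fun n => 0 < f n ∧ μ / 2 ≤ f n), f n) ^ 2 := by gcongr
    _ ≤ ((s.filter (fun n => 0 < f n ∧ μ / 2 ≤ f n)).card : ℝ) *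
        ∑ n ∈ s.filter (fun n => 0 < f n ∧ μ / 2 ≤ f n), f n ^ 2 := sq_sum_le_card_mul_sum_sq
    _ ≤ _ := by
        apply mul_le_mul_of_nonneg_left _ (by positivity)
        exact sum_le_sum_of_subset_of_nonneg (filter_subset _ _) fun n _ _ => by positivity

/-- size comparisons -/
lemma sizes : ∃ N₀ : ℕ, ∀ N : ℕ, N₀ ≤ N → 16 ≤ Real.log N ∧
    √(2 * (N : ℝ)) ≤ N / (64 * Real.log N ^ 2) := by
  have h1 := (Real.isLittleO_pow_log_id_atTop (n := 4)).bound (c := 1 / 8192) (by norm_num)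
  have h3 := Real.tendsto_log_atTop.eventually_ge_atTop 16
  have hev : ∀ᶠ N : ℕ in atTop, ‖Real.log (N : ℝ) ^ 4‖ ≤ 1 / 8192 * ‖id (N : ℝ)‖ ∧
      16 ≤ Real.log (N : ℝ) :=
    tendsto_natCast_atTop_atTop.eventually (h1.and h3)
  obtain ⟨N₀, hN₀⟩ := eventually_atTop.1 hev
  refine ⟨N₀, fun N hN => ?_⟩
  obtain ⟨e1, e3⟩ := hN₀ N hN
  have hN0 : (0 : ℝ) ≤ N := by positivity
  rw [Real.norm_of_nonneg (by positivity), id, Real.norm_of_nonneg hN0] at e1
  refine ⟨e3, ?_⟩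
  rw [Real.sqrt_le_left (by positivity)]
  have hL : 0 < Real.log N := by linarith
  rw [div_pow, le_div_iff₀ (by positivity)]
  calc 2 * (N : ℝ) * (64 * Real.log N ^ 2) ^ 2 = 8192 * N * Real.log N ^ 4 := by ring
    _ ≤ 8192 * (N : ℝ) * (1 / 8192 * N) := by gcongr
    _ = (N : ℝ) ^ 2 := by ring

theorem main : ∃ c C : ℝ, 0 < c ∧ 0 < C ∧ ∃ N₀ : ℕ, ∀ N : ℕ, N₀ ≤ N → ∀ H : ℝ, 1 ≤ H →
    (∑ n ∈ Icc 1 N, (R H n : ℝ) ≤ C * (H / Real.log N ^ 2) * N) ∧
    ((Nat.card {n : ℕ // n ≤ N ∧ 1 ≤ R H n} : ℝ) ≤ C * min 1 (H / Real.log N ^ 2) * N) ∧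
    (10 * Real.log N ≤ H → H ≤ N → c * min 1 (H / Real.log N ^ 2) * N ≤
      (Nat.card {n : ℕ // n ≤ N ∧ 1 ≤ R H n ∧ c * (H / Real.log N ^ 2) ≤ R H n} : ℝ)) := by
  classical
  obtain ⟨C1, hC1, N₁, hf⟩ := first_upper
  obtain ⟨C2, hC2, N₂, hs⟩ := second_upper
  obtain ⟨N₃, hl⟩ := first_lower
  obtain ⟨N₄, hsz⟩ := sizes
  set c : ℝ := min (1 / 512) (1 / (256 * (32768 * C2))) with hc
  have hc0 : 0 < c := lt_min (by norm_num) (by positivity)
  have hc1 : c ≤ 1 / 512 := min_le_left _ _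
  have hc2 : c ≤ 1 / (256 * (32768 * C2)) := min_le_right _ _
  refine ⟨c, C1 + 1, hc0, by positivity, max (max N₁ N₂) (max N₃ N₄), fun N hN H hH1 => ?_⟩
  have hN1 : N₁ ≤ N := (le_max_left _ _).trans ((le_max_left _ _).trans hN)
  have hN2 : N₂ ≤ N := (le_max_right _ _).trans ((le_max_left _ _).trans hN)
  have hN3 : N₃ ≤ N := (le_max_left _ _).trans ((le_max_right _ _).trans hN)
  have hN4 : N₄ ≤ N := (le_max_right _ _).trans ((le_max_right _ _).trans hN)
  obtain ⟨hL16, hsq⟩ := hsz N hN4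
  set L := Real.log N with hL
  have hL0 : 0 < L := by linarith
  have hN0 : (0 : ℝ) < N := by
    rcases Nat.eq_zero_or_pos N with h | h
    · rw [hL, h] at hL16
      norm_num at hL16
    · exact_mod_cast h
  have hA : ∑ n ∈ Icc 1 N, (R H n : ℝ) ≤ (C1 + 1) * (H / L ^ 2) * N := by
    have hIcc : Icc 1 N = Ioc 0 N := by
      ext n; rw [mem_Icc, mem_Ioc]; omega
    rw [hIcc]
    have hfl : (⌊H⌋₊ : ℝ) ≤ H := Nat.floor_le (by linarith)
    calc ∑ n ∈ Ioc 0 N, (R H n : ℝ) ≤ ∑ n ∈ Ioc 0 N, rH ⌊H⌋₊ n :=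
          sum_le_sum fun n _ => R_le ⌊H⌋₊ n H (Nat.lt_floor_add_one H)
      _ ≤ C1 * (N * ⌊H⌋₊ / L ^ 2) := hf N hN1 ⌊H⌋₊
      _ ≤ (C1 + 1) * (N * H / L ^ 2) := by
          gcongr
          linarith
      _ = _ := by ring
  refine ⟨hA, ?_, ?_⟩
  · have hcard : Nat.card {n : ℕ // n ≤ N ∧ 1 ≤ R H n}
        = ((Icc 1 N).filter (fun n => 1 ≤ R H n)).card := by
      apply Nat.subtype_card
      intro n
      rw [mem_filter, mem_Icc]
      constructor
      · rintro ⟨⟨-, h1⟩, h2⟩; exact ⟨h1, h2⟩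
      · rintro ⟨h1, h2⟩
        refine ⟨⟨?_, h1⟩, h2⟩
        rw [R_eq] at h2
        obtain ⟨p, hp⟩ := card_pos.1 h2
        rw [mem_RS] at hp
        omega
    rw [hcard]
    have h1 : (((Icc 1 N).filter (fun n => 1 ≤ R H n)).card : ℝ) ≤ N := by
      have := card_filter_le (Icc 1 N) (fun n => 1 ≤ R H n)
      rw [Nat.card_Icc] at this
      exact_mod_cast this
    have h2 : (((Icc 1 N).filter (fun n => 1 ≤ R H n)).card : ℝ) ≤ (C1 + 1) * (H / L ^ 2) * N := by
      refine le_trans ?_ hA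
      calc (((Icc 1 N).filter (fun n => 1 ≤ R H n)).card : ℝ)
          = ∑ n ∈ (Icc 1 N).filter (fun n => 1 ≤ R H n), (1 : ℝ) := by simp
        _ ≤ ∑ n ∈ (Icc 1 N).filter (fun n => 1 ≤ R H n), (R H n : ℝ) := by
            refine sum_le_sum fun n hn => ?_
            rw [mem_filter] at hn
            exact_mod_cast hn.2
        _ ≤ _ := sum_le_sum_of_subset_of_nonneg (filter_subset _ _) fun n _ _ => by positivity
    rcases le_total 1 (H / L ^ 2) with h | h
    · rw [min_eq_left h]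
      have : 0 ≤ C1 * N := by positivity
      linarith
    · rw [min_eq_right h]; exact h2
  · intro hH10 hHN
    set H' : ℕ := ⌊H / 2⌋₊ with hH'
    have hH'1 : (H' : ℝ) ≤ H / 2 := Nat.floor_le (by linarith)
    have hH'2 : H / 2 < H' + 1 := Nat.lt_floor_add_one _
    have hH'H : (H' : ℝ) ≤ H := by linarith
    have hH'4 : 4 * L ≤ H' := by linarith
    have hH'q : H / 4 ≤ H' := by linarith
    have hH'0 : (0 : ℝ) < H' := by linarith
    have h2N : 2 * H' ≤ N := by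
      have e1 : (2 * H' : ℝ) ≤ N := by linarith
      exact_mod_cast e1
    have hlow := hl N hN3 H' hH'4 h2N
    rw [← hL] at hlow
    have hup := hs N hN2 H'
    rw [← hL] at hup
    have hloss := loss N H'
    set μ : ℝ := H' / (64 * L ^ 2) with hμ
    have hμ0 : 0 < μ := by positivity
    have hcN : ((Ioc 0 N).card : ℝ) = N := by rw [Nat.card_Ioc]; simp
    have hfirst : ((Ioc 0 N).card : ℝ) * μ ≤ ∑ n ∈ Ioc 0 N, r' H' n := by
      rw [hcN]
      have e1 : H' * √(2 * (N : ℝ)) ≤ H' * (N / (64 * L ^ 2)) := by gcongr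
      have e2 : N * (H' : ℝ) / (32 * L ^ 2) = N * μ + H' * (N / (64 * L ^ 2)) := by
        rw [hμ]; field_simp; ring
      linarith
    have hsecond : ∑ n ∈ Ioc 0 N, r' H' n ^ 2 ≤ C2 * (4096 * N * (μ + μ ^ 2)) := by
      calc ∑ n ∈ Ioc 0 N, r' H' n ^ 2 ≤ ∑ n ∈ Ioc 0 N, rH H' n ^ 2 := by
            refine sum_le_sum fun n _ => ?_
            have e1 := r'_nonneg H' n
            have e2 := r'_le H' n
            gcongr
        _ ≤ _ := hup
        _ = C2 * (64 * N * μ + 4096 * N * μ ^ 2) := by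
            rw [hμ]; field_simp; ring
        _ ≤ C2 * (4096 * N * (μ + μ ^ 2)) := by
            have e3 : 64 * N * μ ≤ 4096 * N * μ := by gcongr; norm_num
            have e4 : 64 * N * μ + 4096 * N * μ ^ 2 ≤ 4096 * N * (μ + μ ^ 2) := by linarith
            gcongr
    have hpz := paley (Ioc 0 N) (r' H') μ hμ0.le hfirst
    rw [hcN] at hpz
    set b : ℝ := (((Ioc 0 N).filter (fun n => 0 < r' H' n ∧ μ / 2 ≤ r' H' n)).card : ℝ) with hb
    have hb0 : 0 ≤ b := by positivity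
    have h1 : (N * μ / 2) ^ 2 ≤ b * (C2 * (4096 * N * (μ + μ ^ 2))) :=
      hpz.trans (by gcongr)
    have h2 : N * μ / (16384 * C2 * (1 + μ)) ≤ b := by
      rw [div_le_iff₀ (by positivity)]
      have e1 : (N * μ) * (N * μ) ≤ b * (16384 * C2 * (1 + μ)) * (N * μ) := by
        calc (N * μ) * (N * μ) = 4 * (N * μ / 2) ^ 2 := by ring
          _ ≤ 4 * (b * (C2 * (4096 * N * (μ + μ ^ 2)))) := by gcongr
          _ = b * (16384 * C2 * (1 + μ)) * (N * μ) := by ring
      exact le_of_mul_le_mul_right e1 (by positivity)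
    have h3 : min 1 μ / 2 ≤ μ / (1 + μ) := by
      rw [div_le_div_iff₀ (by norm_num) (by positivity)]
      rcases le_total 1 μ with h | h
      · rw [min_eq_left h]; linarith
      · rw [min_eq_right h]; nlinarith
    have h4 : N * (min 1 μ) / (32768 * C2) ≤ b := by
      refine le_trans ?_ h2
      calc N * (min 1 μ) / (32768 * C2) = N * (min 1 μ / 2) / (16384 * C2) := by field_simp; ring
        _ ≤ N * (μ / (1 + μ)) / (16384 * C2) := by gcongr
        _ = N * μ / (16384 * C2 * (1 + μ)) := by field_simp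
    have hμH : H / L ^ 2 / 256 ≤ μ := by
      rw [hμ, div_div, div_le_div_iff₀ (by positivity) (by positivity)]
      have e1 : H ≤ 4 * H' := by linarith
      calc H * (64 * L ^ 2) ≤ (4 * H') * (64 * L ^ 2) := by gcongr
        _ = H' * (L ^ 2 * 256) := by ring
    have hHL0 : 0 ≤ H / L ^ 2 := by positivity
    have h5 : min 1 (H / L ^ 2) / 256 ≤ min 1 μ := by
      apply le_min
      · have := min_le_left 1 (H / L ^ 2)
        linarith
      · have := min_le_right 1 (H / L ^ 2)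
        linarith
    have hmin0 : 0 ≤ min 1 (H / L ^ 2) := le_min zero_le_one hHL0
    have h6 : c * min 1 (H / L ^ 2) * N ≤ b := by
      refine le_trans ?_ h4
      calc c * min 1 (H / L ^ 2) * N ≤ 1 / (256 * (32768 * C2)) * min 1 (H / L ^ 2) * N := by gcongr
        _ = N * (min 1 (H / L ^ 2) / 256) / (32768 * C2) := by field_simp
        _ ≤ N * (min 1 μ) / (32768 * C2) := by gcongr
    refine h6.trans ?_
    have hcard : Nat.card {n : ℕ // n ≤ N ∧ 1 ≤ R H n ∧ c * (H / L ^ 2) ≤ R H n}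
        = ((Ioc 0 N).filter (fun n => 1 ≤ R H n ∧ c * (H / L ^ 2) ≤ R H n)).card := by
      apply Nat.subtype_card
      intro n
      rw [mem_filter, mem_Ioc]
      constructor
      · rintro ⟨⟨-, h1⟩, h2⟩; exact ⟨h1, h2⟩
      · rintro ⟨h1, h2⟩
        refine ⟨⟨?_, h1⟩, h2⟩
        have h3 := h2.1
        rw [R_eq] at h3
        obtain ⟨p, hp⟩ := card_pos.1 h3
        rw [mem_RS] at hp
        omega
    rw [hcard, hb]
    have hsub : (Ioc 0 N).filter (fun n => 0 < r' H' n ∧ μ / 2 ≤ r' H' n)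
        ⊆ (Ioc 0 N).filter (fun n => 1 ≤ R H n ∧ c * (H / L ^ 2) ≤ R H n) := by
      intro n hn
      rw [mem_filter] at hn
      rw [mem_filter]
      refine ⟨hn.1, one_le_R H' n H hH'H hn.2.1, ?_⟩
      have e1 := r'_le_R H' n H hH'H
      have e2 : c * (H / L ^ 2) ≤ μ / 2 := by
        calc c * (H / L ^ 2) ≤ 1 / 512 * (H / L ^ 2) := by gcongr
          _ ≤ μ / 2 := by linarith
      linarith [hn.2.2]
    exact_mod_cast card_le_card hsub

/-- There are constants `c, C > 0` such that for all large `N` and all real `H ≥ 1`: the mean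
over `n ≤ N` of the number of primes `p` in `(√(2n), n)` with `n - p ≤ H` and `2n - p` prime is
at most `C H / log² N`; at most `C N min(1, H / log² N)` of the `n ≤ N` have such a prime; and if
`10 log N ≤ H ≤ N`, then at least `c N min(1, H / log² N)` of the `n ≤ N` have at least
`max(1, c H / log² N)` such primes. -/
theorem result : ∃ c C : ℝ, 0 < c ∧ 0 < C ∧ ∃ N₀ : ℕ, ∀ N : ℕ, N₀ ≤ N → ∀ H : ℝ, 1 ≤ H →
    (∑ n ∈ Icc 1 N, (Nat.card {p : ℕ // p.Prime ∧ √(2 * (n : ℝ)) < p ∧ p < n ∧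
        (n : ℝ) - p ≤ H ∧ (2 * n - p).Prime} : ℝ) ≤ C * (H / Real.log N ^ 2) * N) ∧
    ((Nat.card {n : ℕ // n ≤ N ∧ 1 ≤ Nat.card {p : ℕ // p.Prime ∧ √(2 * (n : ℝ)) < p ∧ p < n ∧
        (n : ℝ) - p ≤ H ∧ (2 * n - p).Prime}} : ℝ) ≤ C * min 1 (H / Real.log N ^ 2) * N) ∧
    (10 * Real.log N ≤ H → H ≤ N → c * min 1 (H / Real.log N ^ 2) * N ≤
      (Nat.card {n : ℕ // n ≤ N ∧
        1 ≤ Nat.card {p : ℕ // p.Prime ∧ √(2 * (n : ℝ)) < p ∧ p < n ∧
          (n : ℝ) - p ≤ H ∧ (2 * n - p).Prime} ∧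
        c * (H / Real.log N ^ 2) ≤ Nat.card {p : ℕ // p.Prime ∧ √(2 * (n : ℝ)) < p ∧ p < n ∧
          (n : ℝ) - p ≤ H ∧ (2 * n - p).Prime}} : ℝ)) := main

end Pool.Agent.Results.MP_33f996_nt.UpperWindow
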